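import Mathlib

set_option autoImplicit false

/-!
The kernel `min s u` is positive semidefinite on the nonnegative reals (integral form).
-/

open MeasureTheory Set Filter Topology

namespace Pool.Agent.L7h65.AG

/-- the function `1(t < s) 1(t < u) f s f u` -/
noncomputable def Fk (f : ℝ → ℝ) (t : ℝ) (p : ℝ × ℝ) : ℝ :=
  (Ioi t).indicator f p.1 * (Ioi t).indicator f p.2

lemma Fk_eq (f : ℝ → ℝ) (x : ℝ × (ℝ × ℝ)) : Fk f x.1 x.2 =
    ({x : ℝ × (ℝ × ℝ) | x.1 < x.2.1 ∧ x.1 < x.2.2}).indicator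
      (fun x => f x.2.1 * f x.2.2) x := by
  unfold Fk
  by_cases h1 : x.1 < x.2.1
  · by_cases h2 : x.1 < x.2.2
    · rw [indicator_of_mem (show x.2.1 ∈ Ioi x.1 from h1),
        indicator_of_mem (show x.2.2 ∈ Ioi x.1 from h2), indicator_of_mem]
      exact ⟨h1, h2⟩
    · have hn : x ∉ {x : ℝ × (ℝ × ℝ) | x.1 < x.2.1 ∧ x.1 < x.2.2} := fun h => h2 h.2
      rw [indicator_of_notMem (show x.2.2 ∉ Ioi x.1 from h2), indicator_of_notMem hn, mul_zero]
  · have hn : x ∉ {x : ℝ × (ℝ × ℝ) | x.1 < x.2.1 ∧ x.1 < x.2.2} := fun h => h1 h.1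
    rw [indicator_of_notMem (show x.2.1 ∉ Ioi x.1 from h1), indicator_of_notMem hn, zero_mul]

lemma Fk_int (pi : Measure ℝ) [IsProbabilityMeasure pi] (f : ℝ → ℝ) (hf1 : Integrable f pi)
    (T : ℝ) : Integrable (Function.uncurry (Fk f))
      ((volume.restrict (Ioc 0 T)).prod (pi.prod pi)) := by
  have h1 : Integrable (fun p : ℝ × ℝ => f p.1 * f p.2) (pi.prod pi) := hf1.mul_prod hf1
  have h2 : Integrable (fun x : ℝ × (ℝ × ℝ) => f x.2.1 * f x.2.2)
      ((volume.restrict (Ioc 0 T)).prod (pi.prod pi)) := h1.comp_snd _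
  have hm : MeasurableSet {x : ℝ × (ℝ × ℝ) | x.1 < x.2.1 ∧ x.1 < x.2.2} :=
    (measurableSet_lt measurable_fst (measurable_fst.comp measurable_snd)).inter
      (measurableSet_lt measurable_fst (measurable_snd.comp measurable_snd))
  refine (h2.indicator hm).congr (Eventually.of_forall fun x => ?_)
  exact (Fk_eq f x).symm

lemma vol_set (m T : ℝ) (hm : 0 ≤ m) (hT : 0 ≤ T) :
    (volume.restrict (Ioc 0 T)).real (Iio m) = min m T := by
  rw [measureReal_restrict_apply measurableSet_Iio]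
  rcases le_total m T with h | h
  · have e : Iio m ∩ Ioc 0 T = Ioo 0 m := by
      ext x
      simp only [mem_inter_iff, mem_Iio, mem_Ioc, mem_Ioo]
      constructor
      · rintro ⟨h1, h2, _⟩; exact ⟨h2, h1⟩
      · rintro ⟨h1, h2⟩; exact ⟨h2, h1, by linarith⟩
    rw [e, min_eq_left h, Real.volume_real_Ioo_of_le hm, sub_zero]
  · rcases eq_or_lt_of_le h with h' | h'
    · subst h'
      have e : Iio T ∩ Ioc 0 T = Ioo 0 T := by
        ext x
        simp only [mem_inter_iff, mem_Iio, mem_Ioc, mem_Ioo]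
        constructor
        · rintro ⟨h1, h2, _⟩; exact ⟨h2, h1⟩
        · rintro ⟨h1, h2⟩; exact ⟨h2, h1, h2.le⟩
      rw [e, min_self, Real.volume_real_Ioo_of_le hT, sub_zero]
    · have e : Iio m ∩ Ioc 0 T = Ioc 0 T := by
        ext x
        simp only [mem_inter_iff, mem_Iio, mem_Ioc]
        constructor
        · rintro ⟨_, h2⟩; exact h2
        · rintro ⟨h1, h2⟩; exact ⟨by linarith, h1, h2⟩
      rw [e, min_eq_right h, Real.volume_real_Ioc_of_le hT, sub_zero]

lemma inner (f : ℝ → ℝ) (T s u : ℝ) (hs : 0 ≤ s) (hu : 0 ≤ u) (hT : 0 ≤ T) :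
    ∫ t in Ioc 0 T, Fk f t (s, u) = f s * f u * min (min s u) T := by
  have h1 : ∀ t, Fk f t (s, u) = (Iio (min s u)).indicator (fun _ => f s * f u) t := by
    intro t
    unfold Fk
    by_cases h1 : t < s
    · by_cases h2 : t < u
      · rw [indicator_of_mem (show (s, u).1 ∈ Ioi t from h1),
          indicator_of_mem (show (s, u).2 ∈ Ioi t from h2), indicator_of_mem]
        exact lt_min h1 h2
      · have hn : t ∉ Iio (min s u) := fun h => h2 (lt_of_lt_of_le h (min_le_right _ _))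
        rw [indicator_of_notMem (show (s, u).2 ∉ Ioi t from h2), indicator_of_notMem hn, mul_zero]
    · have hn : t ∉ Iio (min s u) := fun h => h1 (lt_of_lt_of_le h (min_le_left _ _))
      rw [indicator_of_notMem (show (s, u).1 ∉ Ioi t from h1), indicator_of_notMem hn, zero_mul]
  simp only [h1]
  rw [integral_indicator measurableSet_Iio, setIntegral_const, vol_set _ _ (le_min hs hu) hT,
    smul_eq_mul]
  ring

lemma pos_T (pi : Measure ℝ) [IsProbabilityMeasure pi] (f : ℝ → ℝ) (hf1 : Integrable f pi)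
    (T : ℝ) : 0 ≤ ∫ p, ∫ t in Ioc 0 T, Fk f t p ∂volume ∂(pi.prod pi) := by
  have h := integral_integral_swap (Fk_int pi f hf1 T)
  rw [← h]
  apply integral_nonneg
  intro t
  have h2 : ∫ p, Fk f t p ∂(pi.prod pi) =
      (∫ x, (Ioi t).indicator f x ∂pi) * (∫ x, (Ioi t).indicator f x ∂pi) :=
    integral_prod_mul _ _
  show 0 ≤ ∫ p, Fk f t p ∂(pi.prod pi)
  rw [h2]
  exact mul_self_nonneg _

theorem frm (pi : Measure ℝ) [IsProbabilityMeasure pi] (h0 : ∀ᵐ u ∂pi, 0 ≤ u) (f : ℝ → ℝ)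
    (hf : Measurable f)
    (hi : Integrable (Function.uncurry fun s u : ℝ => f s * (min s u * f u)) (pi.prod pi))
    (hf1 : Integrable f pi) : 0 ≤ ∫ s, ∫ u, f s * (min s u * f u) ∂pi ∂pi := by
  have hae : ∀ᵐ p ∂(pi.prod pi), 0 ≤ p.1 ∧ 0 ≤ p.2 :=
    (Measure.quasiMeasurePreserving_fst.ae h0).and (Measure.quasiMeasurePreserving_snd.ae h0)
  have hprod : ∫ s, ∫ u, f s * (min s u * f u) ∂pi ∂pi =
      ∫ p, Function.uncurry (fun s u : ℝ => f s * (min s u * f u)) p ∂(pi.prod pi) :=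
    (integral_prod _ hi).symm
  rw [hprod]
  have hlim : Tendsto (fun n : ℕ => ∫ p : ℝ × ℝ, f p.1 * f p.2 * min (min p.1 p.2) (n : ℝ)
      ∂(pi.prod pi)) atTop
      (𝓝 (∫ p, Function.uncurry (fun s u : ℝ => f s * (min s u * f u)) p ∂(pi.prod pi))) := by
    apply tendsto_integral_of_dominated_convergence
      (fun p => ‖Function.uncurry (fun s u : ℝ => f s * (min s u * f u)) p‖)
    · intro n
      apply Measurable.aestronglyMeasurable
      have m1 : Measurable (fun p : ℝ × ℝ => f p.1) := hf.comp measurable_fst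
      have m2 : Measurable (fun p : ℝ × ℝ => f p.2) := hf.comp measurable_snd
      exact (m1.mul m2).mul ((measurable_fst.min measurable_snd).min measurable_const)
    · exact hi.norm
    · intro n
      filter_upwards [hae] with p hp
      have e1 : 0 ≤ min p.1 p.2 := le_min hp.1 hp.2
      have e2 : 0 ≤ min (min p.1 p.2) (n : ℝ) := le_min e1 (Nat.cast_nonneg n)
      have e3 : min (min p.1 p.2) (n : ℝ) ≤ min p.1 p.2 := min_le_left _ _
      have e4 : Function.uncurry (fun s u : ℝ => f s * (min s u * f u)) p =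
          f p.1 * f p.2 * min p.1 p.2 := by
        change f p.1 * (min p.1 p.2 * f p.2) = _
        ring
      rw [e4, norm_mul, norm_mul (f p.1 * f p.2) (min p.1 p.2), Real.norm_of_nonneg e2,
        Real.norm_of_nonneg e1]
      exact mul_le_mul_of_nonneg_left e3 (norm_nonneg _)
    · filter_upwards with p
      apply tendsto_const_nhds.congr'
      filter_upwards [eventually_ge_atTop (Nat.ceil (min p.1 p.2))] with n hn
      have e1 : min p.1 p.2 ≤ (n : ℝ) := (Nat.le_ceil _).trans (by exact_mod_cast hn)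
      rw [min_eq_left e1]
      change f p.1 * (min p.1 p.2 * f p.2) = _
      ring
  apply ge_of_tendsto' hlim
  intro n
  have h1 := pos_T pi f hf1 (n : ℝ)
  have h2 : ∫ p, ∫ t in Ioc 0 (n : ℝ), Fk f t p ∂volume ∂(pi.prod pi) =
      ∫ p : ℝ × ℝ, f p.1 * f p.2 * min (min p.1 p.2) (n : ℝ) ∂(pi.prod pi) := by
    apply integral_congr_ae
    filter_upwards [hae] with p hp
    exact inner f n p.1 p.2 hp.1 hp.2 (Nat.cast_nonneg n)
  rw [h2] at h1
  exact h1

end Pool.Agent.L7h65.AG
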